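import Pool.Agent.Helper20.QD.St3

/-!
# Project QD, part B (MP_d112a4_gt), module LFR: the squared Frobenius distance
-/

set_option autoImplicit false

namespace Pool.Agent.Helper64.QD

open Pool.Agent.Helper35.PM Pool.Agent.Helper20.QD
open Filter Topology Set Metric

private theorem lfr_eq (P Q : Mat) : fr P Q = ∑ i, ∑ j, ‖P i j - Q i j‖ ^ 2 := rfl

private noncomputable def eu (P : Mat) : EuclideanSpace ℂ (Fin 2 × Fin 2) :=
  WithLp.toLp 2 (fun k => P k.1 k.2)

private theorem lfr_sqrt (P Q : Mat) : Real.sqrt (fr P Q) = ‖eu P - eu Q‖ := by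
  rw [EuclideanSpace.norm_eq, Fintype.sum_prod_type]
  rfl

private theorem lfr_entry (P Q : Mat) (i j : Fin 2) : ‖P i j - Q i j‖ ^ 2 ≤ fr P Q := by
  rw [lfr_eq]
  have h1 : ‖P i j - Q i j‖ ^ 2 ≤ ∑ j, ‖P i j - Q i j‖ ^ 2 :=
    Finset.single_le_sum (f := fun j => ‖P i j - Q i j‖ ^ 2) (fun _ _ => by positivity)
      (Finset.mem_univ j)
  exact h1.trans (Finset.single_le_sum (f := fun i => ∑ j, ‖P i j - Q i j‖ ^ 2)
    (fun _ _ => Finset.sum_nonneg fun _ _ => by positivity) (Finset.mem_univ i))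

private theorem lfr_cont (P : Mat) : Continuous (fun Q : Mat => fr Q P) := by
  have h : ∀ i j, Continuous (fun Q : Mat => Q i j) := fun i j => continuous_id.matrix_elem i j
  simp only [lfr_eq]
  exact continuous_finsetSum _ fun i _ => continuous_finsetSum _ fun j _ =>
    ((h i j).sub continuous_const).norm.pow 2

/-- LFR -/
theorem hLFR : StLFR := by
  refine ⟨?_, ?_, lfr_entry, ?_⟩
  · intro P Q
    refine ⟨?_, ?_, ?_⟩
    · rw [lfr_eq]
      positivity
    · rw [lfr_eq, lfr_eq]
      exact Finset.sum_congr rfl fun i _ => Finset.sum_congr rfl fun j _ => by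
        rw [norm_sub_rev]
    · intro h
      ext i j
      have h1 := lfr_entry P Q i j
      rw [h] at h1
      have h2 : ‖P i j - Q i j‖ = 0 := by
        nlinarith [norm_nonneg (P i j - Q i j)]
      exact sub_eq_zero.1 (norm_eq_zero.1 h2)
  · intro P Q R
    rw [lfr_sqrt, lfr_sqrt, lfr_sqrt]
    exact norm_sub_le_norm_sub_add_norm_sub _ _ _
  · intro P
    refine ⟨fun t => ⟨fun ht => ?_, ?_⟩⟩
    · have ht' : t ∈ @nhds (Fin 2 → Fin 2 → ℂ) _ P := ht
      obtain ⟨ε, hε, hsub⟩ := Metric.mem_nhds_iff.1 ht'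
      refine ⟨ε ^ 2, by positivity, fun Q hQ => hsub ?_⟩
      rw [Metric.mem_ball, dist_pi_lt_iff hε]
      intro i
      rw [dist_pi_lt_iff hε]
      intro j
      rw [dist_eq_norm]
      have hQ' : fr Q P < ε ^ 2 := hQ
      have h1 := (lfr_entry Q P i j).trans_lt hQ'
      exact lt_of_pow_lt_pow_left₀ 2 hε.le h1
    · rintro ⟨δ, hδ, hsub⟩
      refine Filter.mem_of_superset ?_ hsub
      refine (isOpen_lt (lfr_cont P) continuous_const).mem_nhds ?_
      show fr P P < δ
      have h1 : fr P P = 0 := by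
        rw [lfr_eq]
        exact Finset.sum_eq_zero fun i _ => Finset.sum_eq_zero fun j _ => by
          rw [sub_self, norm_zero]
          norm_num
      rw [h1]
      exact hδ

end Pool.Agent.Helper64.QD
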